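import Pool.Agent.H4.TA.Targets

/-!
# The probability of avoiding the starting point (MP_183c3b_co)
-/

set_option autoImplicit false

open Finset Pool.Agent.H43.TC Pool.Agent.H4.TA

namespace Pool.Agent.H68.TA

lemma sum_cons (k s : ℕ) (f : Wd k (s + 1) → ℝ) :
    ∑ w, f w = ∑ a : Fin k × Bool, ∑ w : Wd k s, f (Fin.cons a w) := by
  rw [← Fintype.sum_prod_type']
  symm
  exact Fintype.sum_equiv (Fin.consEquiv (fun _ => Fin k × Bool)) _ _ fun p => rfl

theorem pf_AVQ (hWRD : T_WRD) : T_AVQ := by
  intro k t hk
  cases t with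
  | zero =>
    unfold qq av
    have h : ∀ w : Wd k 0, ind (∀ i, 1 ≤ i → i ≤ 0 → pos w i ≠ 0) = 1 := by
      intro w
      exact ind_true fun i h1 h2 => by omega
    rw [sum_congr rfl fun w _ => h w]
    simp [avoid]
  | succ s =>
    unfold qq av
    congr 1
    rw [sum_cons, Fintype.sum_prod_type]
    unfold avoid
    push_cast
    refine sum_congr rfl fun i _ => ?_
    have key : ∀ a : Fin k × Bool, (walks un (off k) true s (stp a) : ℝ) =
        ∑ w : Wd k s, ind (∀ i, 1 ≤ i → i ≤ s + 1 → pos (Fin.cons a w : Wd k (s + 1)) i ≠ 0) := by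
      intro a
      rw [hWRD (Fin k → ℤ) k un (AddMonoidHom.id _) (fun i => rfl) (off k) true s (stp a)]
      refine sum_congr rfl fun w _ => ind_congr ?_
      constructor
      · intro h i h1 h2
        obtain ⟨l, rfl⟩ : ∃ l, i = l + 1 := ⟨i - 1, by omega⟩
        rw [pos_cons]
        have h3 := h l (by omega)
        simpa [off] using h3
      · intro h l hl
        have h3 := h (l + 1) (by omega) (by omega)
        rw [pos_cons] at h3
        simpa [off] using h3
    rw [Fintype.sum_bool]
    have k1 := key (i, true)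
    have k2 := key (i, false)
    have e1 : stp (i, true) = (un i : Fin k → ℤ) := by simp [stp]
    have e2 : stp (i, false) = -(un i : Fin k → ℤ) := by simp [stp]
    rw [e1] at k1
    rw [e2] at k2
    rw [k1, k2]

end Pool.Agent.H68.TA
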