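import Pool.Agent.H4.TA.Targets

/-!
# Independence of the two parts of a word (MP_183c3b_co)
-/

set_option autoImplicit false

open Finset Pool.Agent.H43.TC Pool.Agent.H4.TA

namespace Pool.Agent.H68.TA

theorem pf_SPL : T_SPL := by
  intro k i j f g _
  have h : ∑ w : Wd k (i + j), f (fun l => w (Fin.castAdd j l)) * g (fun l => w (Fin.natAdd i l)) =
      (∑ u, f u) * ∑ v, g v := by
    rw [Fintype.sum_mul_sum, ← Fintype.sum_prod_type']
    symm
    refine Fintype.sum_equiv (Fin.appendEquiv i j) _ _ fun p => ?_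
    simp [Fin.appendEquiv]
  unfold av
  rw [h, pow_add, div_mul_div_comm]

end Pool.Agent.H68.TA
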